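import Pool.Agent.P.MP_441ee1_co.Asym

namespace Pool.Agent.Results.MP_441ee1_co.Asymptotic

open Pool.Agent.P.MP_441ee1_co

theorem result :
    ∀ (V : Type) [Fintype V] [DecidableEq V] [Nonempty V]
      (t : ℕ) (E : Fin t → Finset (V × V)) (r : Fin t → ℕ) (ρ : ℕ),
      (∀ i, ∀ e ∈ E i, e.1 ≠ e.2) →
      (∀ i, ∀ v : V, r i ≤ ((E i).filter (fun e => e.1 = v)).card) →
      (∀ i, r i ≤ ρ) →
      (Fintype.card V : ℝ) + 6 * √((Fintype.card V : ℝ) * ρ) ≤ ∑ i, (r i : ℝ) →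
      ∃ k : ℕ, 2 ≤ k ∧ ∃ c : Fin k → V, Function.Injective c ∧
        ∃ f : Fin k → Fin t, Function.Injective f ∧
          ∀ j : Fin k, (c j, c (finRotate k j)) ∈ E (f j) := by
  intro V _ _ _ t E r ρ hloop hdeg hρ hsum
  refine bridge E r hloop hdeg fun N h => ?_
  have := h.asym Finset.univ_nonempty fun i _ => hρ i
  rw [Finset.card_univ] at this
  exact absurd hsum (not_le.2 this)

end Pool.Agent.Results.MP_441ee1_co.Asymptotic
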