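import Pool.Agent.P.MP_441ee1_co.Removal

namespace Pool.Agent.Results.MP_441ee1_co.FactorTwo

open Pool.Agent.P.MP_441ee1_co

theorem result :
    ∀ (V : Type) [Fintype V] [DecidableEq V] [Nonempty V]
      (t : ℕ) (E : Fin t → Finset (V × V)) (r : Fin t → ℕ),
      (∀ i, ∀ e ∈ E i, e.1 ≠ e.2) →
      (∀ i, ∀ v : V, r i ≤ ((E i).filter (fun e => e.1 = v)).card) →
      (∀ i, 1 ≤ r i) →
      2 * Fintype.card V < ∑ i, (r i + 1) →
      ∃ k : ℕ, 2 ≤ k ∧ ∃ c : Fin k → V, Function.Injective c ∧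
        ∃ f : Fin k → Fin t, Function.Injective f ∧
          ∀ j : Fin k, (c j, c (finRotate k j)) ∈ E (f j) := by
  intro V _ _ _ t E r hloop hdeg hr hsum
  refine bridge E r hloop hdeg fun N h => ?_
  have := h.two_pos Finset.univ_nonempty fun i _ => hr i
  rw [Finset.card_univ] at this
  exact absurd hsum (not_lt.2 this)

end Pool.Agent.Results.MP_441ee1_co.FactorTwo
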